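import Pool.Agent.H28.BF.Stm

set_option autoImplicit false

/-! Project BF (helper28), module EQD (helper40) -/

namespace Pool.Agent.H40.BF

open Finset Filter Topology Polynomial Pool.Agent.H28.BF

noncomputable section

/-- the weight in a residue class -/
def wc (w : ℕ → ℝ) (q b n : ℕ) : ℝ := if n % q = b then w n else 0

theorem wc_nonneg {w : ℕ → ℝ} (h : ∀ n, 0 ≤ w n ∧ w n ≤ 1) (q b n : ℕ) : 0 ≤ wc w q b n := by
  unfold wc
  split_ifs
  · exact (h n).1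
  · exact le_rfl

theorem wc_le {w : ℕ → ℝ} (h : ∀ n, 0 ≤ w n ∧ w n ≤ 1) (q b n : ℕ) : wc w q b n ≤ 1 := by
  unfold wc
  split_ifs
  · exact (h n).2
  · exact zero_le_one

theorem t_EQD (hET : S_ET) (hPRI : S_PRI) : S_EQD := by
  intro w hw
  set f : ℕ → ℕ → ℂ := fun j n =>
    ((wc (w (Nat.unpair j).1) (Nat.unpair (Nat.unpair j).2).1 (Nat.unpair (Nat.unpair j).2).2 n : ℝ) : ℂ) with hf
  have hfn : ∀ j n, ‖f j n‖ ≤ 1 := by
    intro j n
    rw [hf]
    simp only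
    rw [Complex.norm_real, Real.norm_of_nonneg (wc_nonneg (hw _) _ _ _)]
    exact wc_le (hw _) _ _ _
  obtain ⟨E, hE1, hE2, hE3⟩ := hPRI f hfn
  refine ⟨E, hE1, hE2, fun α hα k D q b hD hq δ hδ => ?_⟩
  obtain ⟨H, C, hH, hC, het⟩ := hET (δ / 2) (by positivity)
  have hH0 : (0 : ℝ) < H := by exact_mod_cast hH
  set j := Nat.pair k (Nat.pair q b) with hj
  have hfj : ∀ n, f j n = ((wc (w k) q b n : ℝ) : ℂ) := by
    intro n
    simp only [hf, hj, Nat.unpair_pair]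
  have hev : ∀ᶠ N : ℕ in atTop, ∀ h ∈ Icc 1 H, ∀ P : ℝ[X], P.natDegree ≤ D → P.coeff D = h * α →
      ‖∑ n ∈ Ioc 0 N, f j n * ex (P.eval (n : ℝ))‖ ≤ δ / (2 * C * H) * N := by
    rw [Filter.eventually_all_finset]
    intro h hh
    exact hE3 α hα j D h hD (mem_Icc.1 hh).1 (δ / (2 * C * H)) (by positivity)
  filter_upwards [hev] with N hN P hP1 hP2 v hv0 hv1
  have hnn : ∀ n, 0 ≤ wc (w k) q b n := fun n => wc_nonneg (hw k) q b n
  have hsum : ∑ n ∈ Ioc 0 N, wc (w k) q b n ≤ N := by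
    calc ∑ n ∈ Ioc 0 N, wc (w k) q b n ≤ ∑ n ∈ Ioc 0 N, (1 : ℝ) :=
          sum_le_sum fun n _ => wc_le (hw k) q b n
      _ = N := by simp
  have key := het N (fun n => wc (w k) q b n) hnn (fun n => P.eval (n : ℝ)) v hv0 hv1
  have hexp : ∀ h ∈ Icc 1 H, ‖∑ n ∈ Ioc 0 N, ((wc (w k) q b n : ℝ) : ℂ) * ex (h * P.eval (n : ℝ))‖ ≤
      δ / (2 * C * H) * N := by
    intro h hh
    have h1 := hN h hh (Polynomial.C (h : ℝ) * P) ((natDegree_C_mul_le _ _).trans hP1)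
      (by rw [coeff_C_mul, hP2])
    refine le_trans (le_of_eq ?_) h1
    congr 1
    refine sum_congr rfl fun n _ => ?_
    rw [hfj, eval_C_mul]
  have e1 : ∑ n ∈ (Ioc 0 N).filter (fun n => n % q = b ∧ Int.fract (P.eval (n : ℝ)) < v), w k n =
      ∑ n ∈ (Ioc 0 N).filter (fun n : ℕ => Int.fract (P.eval (n : ℝ)) < v), wc (w k) q b n := by
    rw [sum_filter, sum_filter]
    refine sum_congr rfl fun n _ => ?_
    unfold wc
    by_cases h1 : n % q = b <;> by_cases h2 : Int.fract (P.eval (n : ℝ)) < v <;> simp [h1, h2]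
  have e2 : ∑ n ∈ (Ioc 0 N).filter (fun n => n % q = b), w k n = ∑ n ∈ Ioc 0 N, wc (w k) q b n := by
    rw [sum_filter]
    rfl
  rw [e1, e2]
  calc _ ≤ δ / 2 * ∑ n ∈ Ioc 0 N, wc (w k) q b n +
        C * ∑ h ∈ Icc 1 H, ‖∑ n ∈ Ioc 0 N, ((wc (w k) q b n : ℝ) : ℂ) * ex (h * P.eval (n : ℝ))‖ := key
    _ ≤ δ / 2 * N + C * ∑ h ∈ Icc 1 H, δ / (2 * C * H) * N := by
        refine add_le_add (mul_le_mul_of_nonneg_left hsum (by positivity))
          (mul_le_mul_of_nonneg_left (sum_le_sum hexp) hC.le)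
    _ = δ * N := by
        rw [sum_const, Nat.card_Icc, Nat.add_sub_cancel, nsmul_eq_mul]
        field_simp
        ring

end

end Pool.Agent.H40.BF
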