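import Pool.Agent.H28.BF.Stm

set_option autoImplicit false

/-! Project BF (helper28), module REC (helper40): recurrent rotations (Green-Tao, Lemma 3.2) -/

namespace Pool.Agent.H40.BF

open Finset Pool.Agent.H28.BF

theorem nd_add_int (x : ℝ) (z : ℤ) : nd (x + z) = nd x := by
  unfold nd
  rw [round_add_intCast]
  push_cast
  congr 1
  ring

theorem nd_le (x : ℝ) (z : ℤ) : nd x ≤ |x - z| := round_le x z

theorem nd_neg (x : ℝ) : nd (-x) = nd x := by
  refine le_antisymm ?_ ?_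
  · refine (nd_le (-x) (-round x)).trans (le_of_eq ?_)
    unfold nd
    push_cast
    rw [← abs_neg]
    congr 1
    ring
  · refine (nd_le x (-round (-x))).trans (le_of_eq ?_)
    unfold nd
    push_cast
    rw [← abs_neg]
    congr 1
    ring

/-- the points of a progression near one integer -/
theorem fiber {T : ℕ} {y b κ : ℝ} (hb : 0 < b) (hκ : 0 ≤ κ) (m : ℤ) :
    (((range T).filter (fun t : ℕ => |y + t * b - m| ≤ κ)).card : ℝ) ≤ 2 * κ / b + 1 := by
  set S := (range T).filter (fun t : ℕ => |y + t * b - m| ≤ κ) with hS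
  rcases S.eq_empty_or_nonempty with h | h
  · rw [h, card_empty]
    push_cast
    positivity
  · set t0 := S.min' h with ht0
    have h0 : |y + t0 * b - m| ≤ κ := (mem_filter.1 (S.min'_mem h)).2
    have hsub : S ⊆ Icc t0 (t0 + ⌊2 * κ / b⌋₊) := by
      intro t ht
      have h1 : t0 ≤ t := S.min'_le t ht
      have h2 : |y + t * b - m| ≤ κ := (mem_filter.1 ht).2
      rw [mem_Icc]
      refine ⟨h1, ?_⟩
      have h3 : ((t - t0 : ℕ) : ℝ) ≤ 2 * κ / b := by
        rw [le_div_iff₀ hb, Nat.cast_sub h1]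
        rw [abs_le] at h0 h2
        nlinarith [h0.1, h0.2, h2.1, h2.2]
      have h4 := Nat.le_floor h3
      omega
    have h1 := card_le_card hsub
    rw [Nat.card_Icc] at h1
    have h2 : S.card ≤ ⌊2 * κ / b⌋₊ + 1 := by omega
    have h3 : (⌊2 * κ / b⌋₊ : ℝ) ≤ 2 * κ / b := Nat.floor_le (by positivity)
    have h4 : (S.card : ℝ) ≤ (⌊2 * κ / b⌋₊ : ℝ) + 1 := by exact_mod_cast h2
    linarith

/-- the points of a progression near the integers -/
theorem prog {T : ℕ} {y b κ : ℝ} (hb : 0 < b) (hκ : 0 ≤ κ) :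
    (((range T).filter (fun t : ℕ => nd (y + t * b) ≤ κ)).card : ℝ) ≤
      (T * b + 2) * (2 * κ / b + 1) := by
  set S := (range T).filter (fun t : ℕ => nd (y + t * b) ≤ κ) with hS
  set J : Finset ℤ := Icc ⌈y - 1 / 2⌉ ⌊y + T * b + 1 / 2⌋ with hJ
  have hmap : ∀ t ∈ S, round (y + t * b) ∈ J := by
    intro t ht
    rw [hS, mem_filter, mem_range] at ht
    have h1 := abs_sub_round (y + t * b)
    rw [abs_le] at h1
    have h2 : (t : ℝ) ≤ T := by exact_mod_cast ht.1.le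
    have h3 : 0 ≤ (t : ℝ) * b := by positivity
    have h4 : (t : ℝ) * b ≤ T * b := mul_le_mul_of_nonneg_right h2 hb.le
    rw [hJ, mem_Icc]
    constructor
    · rw [Int.ceil_le]
      linarith [h1.1, h1.2]
    · rw [Int.le_floor]
      linarith [h1.1, h1.2]
  have hcard : S.card = ∑ m ∈ J, (S.filter (fun t : ℕ => round (y + t * b) = m)).card :=
    card_eq_sum_card_fiberwise hmap
  have hfib : ∀ m ∈ J, ((S.filter (fun t : ℕ => round (y + t * b) = m)).card : ℝ) ≤ 2 * κ / b + 1 := by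
    intro m _
    refine le_trans ?_ (fiber (T := T) (y := y) hb hκ m)
    have h1 : S.filter (fun t : ℕ => round (y + t * b) = m) ⊆
        (range T).filter (fun t : ℕ => |y + t * b - m| ≤ κ) := by
      intro t ht
      rw [mem_filter, hS, mem_filter] at ht
      rw [mem_filter]
      refine ⟨ht.1.1, ?_⟩
      have h2 := ht.1.2
      unfold nd at h2
      rw [ht.2] at h2
      exact h2
    exact_mod_cast card_le_card h1
  have hJc : (J.card : ℝ) ≤ T * b + 2 := by
    rw [hJ, Int.card_Icc]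
    have h1 : (0 : ℝ) ≤ T * b + 2 := by positivity
    have h2 : ((⌊y + T * b + 1 / 2⌋ + 1 - ⌈y - 1 / 2⌉ : ℤ) : ℝ) ≤ T * b + 2 := by
      push_cast
      have h3 := Int.floor_le (y + T * b + 1 / 2)
      have h4 := Int.le_ceil (y - 1 / 2)
      linarith
    rcases le_or_gt (⌊y + T * b + 1 / 2⌋ + 1 - ⌈y - 1 / 2⌉) 0 with h5 | h5
    · rw [Int.toNat_of_nonpos h5]
      push_cast
      exact h1
    · have h6 : (((⌊y + T * b + 1 / 2⌋ + 1 - ⌈y - 1 / 2⌉).toNat : ℤ)) =
          ⌊y + T * b + 1 / 2⌋ + 1 - ⌈y - 1 / 2⌉ := Int.toNat_of_nonneg h5.le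
      have h7 : (((⌊y + T * b + 1 / 2⌋ + 1 - ⌈y - 1 / 2⌉).toNat : ℝ)) =
          ((⌊y + T * b + 1 / 2⌋ + 1 - ⌈y - 1 / 2⌉ : ℤ) : ℝ) := by exact_mod_cast h6
      rw [h7]
      exact h2
  have hK : 0 ≤ 2 * κ / b + 1 := by positivity
  calc (S.card : ℝ) = ∑ m ∈ J, ((S.filter (fun t : ℕ => round (y + t * b) = m)).card : ℝ) := by
        exact_mod_cast hcard
    _ ≤ ∑ m ∈ J, (2 * κ / b + 1) := sum_le_sum hfib
    _ = J.card * (2 * κ / b + 1) := by rw [sum_const, nsmul_eq_mul]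
    _ ≤ _ := mul_le_mul_of_nonneg_right hJc hK

/-- the count for `q θ = a + b`, `0 < b ≤ 1` -/
theorem cnt {N q : ℕ} {θ b κ : ℝ} {a : ℤ} (hq : 1 ≤ q) (hb : 0 < b) (hb1 : b ≤ 1) (hκ : 0 ≤ κ)
    (hθ : (q : ℝ) * θ = a + b) :
    (((Icc 1 N).filter (fun h : ℕ => nd (h * θ) ≤ κ)).card : ℝ) ≤
      (N * b + 3 * q) * (2 * κ / b + 1) := by
  set S := (Icc 1 N).filter (fun h : ℕ => nd (h * θ) ≤ κ) with hS
  have hmap : ∀ h ∈ S, h % q ∈ range q := fun h _ => mem_range.2 (Nat.mod_lt _ hq)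
  have hcard : S.card = ∑ r ∈ range q, (S.filter (fun h : ℕ => h % q = r)).card :=
    card_eq_sum_card_fiberwise hmap
  have hK : 0 ≤ 2 * κ / b + 1 := by positivity
  have hfib : ∀ r ∈ range q, ((S.filter (fun h : ℕ => h % q = r)).card : ℝ) ≤
      (((N / q + 1 : ℕ) : ℝ) * b + 2) * (2 * κ / b + 1) := by
    intro r _
    refine le_trans ?_ (prog (T := N / q + 1) (y := r * θ) hb hκ)
    have h1 : (S.filter (fun h : ℕ => h % q = r)).card ≤
        ((range (N / q + 1)).filter (fun t : ℕ => nd (r * θ + t * b) ≤ κ)).card := by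
      refine card_le_card_of_injOn (fun h => h / q) ?_ ?_
      · intro h hh
        rw [mem_coe, mem_filter, hS, mem_filter, mem_Icc] at hh
        obtain ⟨⟨⟨h1, h2⟩, h3⟩, h4⟩ := hh
        rw [mem_coe, mem_filter, mem_range]
        refine ⟨Nat.lt_succ_of_le (Nat.div_le_div_right h2), ?_⟩
        have e0 := Nat.mod_add_div h q
        rw [h4] at e0
        show nd (r * θ + ((h / q : ℕ) : ℝ) * b) ≤ κ
        generalize h / q = t at e0
        have h5 : (h : ℝ) = r + q * (t : ℝ) := by exact_mod_cast e0.symm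
        have h6 : (h : ℝ) * θ = (r * θ + (t : ℝ) * b) + (((t : ℤ) * a : ℤ) : ℝ) := by
          rw [h5]
          push_cast
          have : (r + q * (t : ℝ)) * θ = r * θ + (t : ℝ) * (q * θ) := by ring
          rw [this, hθ]
          ring
        rw [h6, nd_add_int] at h3
        exact h3
      · intro h1 hh1 h2 hh2 he
        rw [mem_coe, mem_filter] at hh1 hh2
        have e1 := Nat.mod_add_div h1 q
        have e2 := Nat.mod_add_div h2 q
        have he' : h1 / q = h2 / q := he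
        rw [hh1.2, he'] at e1
        rw [hh2.2] at e2
        omega
    exact_mod_cast h1
  have hqT : (q : ℝ) * (((N / q + 1 : ℕ) : ℝ)) ≤ N + q := by
    have h1 : q * (N / q + 1) ≤ N + q := by
      have := Nat.mul_div_le N q
      rw [mul_add, mul_one]
      omega
    exact_mod_cast h1
  have hq0 : (0 : ℝ) ≤ q := Nat.cast_nonneg q
  calc (S.card : ℝ) = ∑ r ∈ range q, ((S.filter (fun h : ℕ => h % q = r)).card : ℝ) := by
        exact_mod_cast hcard
    _ ≤ ∑ r ∈ range q, (((N / q + 1 : ℕ) : ℝ) * b + 2) * (2 * κ / b + 1) := sum_le_sum hfib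
    _ = (((q : ℝ) * ((N / q + 1 : ℕ) : ℝ)) * b + 2 * q) * (2 * κ / b + 1) := by
        rw [sum_const, card_range, nsmul_eq_mul]
        ring
    _ ≤ (N * b + 3 * q) * (2 * κ / b + 1) := by
        refine mul_le_mul_of_nonneg_right ?_ hK
        have h1 : ((q : ℝ) * ((N / q + 1 : ℕ) : ℝ)) * b ≤ (N + q) * b :=
          mul_le_mul_of_nonneg_right hqT hb.le
        have h2 : (q : ℝ) * b ≤ q * 1 := mul_le_mul_of_nonneg_left hb1 hq0
        nlinarith

/-- the conclusion for `0 < b` -/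
theorem concl {N q n : ℕ} {θ b κ c : ℝ} {a : ℤ} (hc : 0 < c) (hq : 1 ≤ q) (hqn : q ≤ n) (hb : 0 < b)
    (hbn : b ≤ 1 / ((n : ℝ) + 1)) (hκ : 0 ≤ κ) (hκc : κ ≤ c / 16) (hn : 8 / c ≤ n) (hN : 24 * n / c ≤ N)
    (hθ : (q : ℝ) * θ = a + b)
    (hcard : c * N ≤ (((Icc 1 N).filter (fun h : ℕ => nd (h * θ) ≤ κ)).card : ℝ)) :
    b * N ≤ 10 * n / c * κ := by
  have hn0 : (0 : ℝ) < n := lt_of_lt_of_le (by positivity) hn
  have hn1 : (1 : ℝ) ≤ q := by exact_mod_cast hq
  have hqn' : (q : ℝ) ≤ n := by exact_mod_cast hqn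
  have hN0 : (0 : ℝ) < N := lt_of_lt_of_le (by positivity) hN
  have hb1 : b ≤ 1 := hbn.trans (by rw [div_le_one (by positivity)]; linarith)
  have hbc : b ≤ c / 8 := by
    refine hbn.trans ?_
    rw [div_le_iff₀ (by positivity)]
    rw [div_le_iff₀ hc] at hn
    nlinarith
  have h1 := hcard.trans (cnt hq hb hb1 hκ hθ)
  have h2 : (N * b + 3 * q) * (2 * κ / b + 1) = 2 * κ * N + N * b + 6 * q * κ / b + 3 * q := by
    field_simp
    ring
  rw [h2] at h1
  have h3 : 3 * (q : ℝ) ≤ c * N / 8 := by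
    rw [div_le_iff₀ hc] at hN
    nlinarith
  have h4 : 2 * κ * N ≤ c * N / 8 := by nlinarith
  have h5 : N * b ≤ c * N / 8 := by nlinarith
  have h6 : 5 / 8 * (c * N) ≤ 6 * q * κ / b := by linarith
  rw [le_div_iff₀ hb] at h6
  have h7 : 6 * q * κ ≤ 6 * n * κ := by nlinarith
  rw [div_mul_eq_mul_div, le_div_iff₀ hc]
  nlinarith

theorem t_REC : S_REC := by
  intro c hc
  set n : ℕ := ⌈8 / c⌉₊ with hn
  have hn8 : 8 / c ≤ n := Nat.le_ceil _
  have hn0 : (0 : ℝ) < n := lt_of_lt_of_le (by positivity) hn8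
  have hn1 : 0 < n := by exact_mod_cast hn0
  set C : ℕ := n + ⌈24 * n / c⌉₊ with hC
  have hC1 : 24 * n / c ≤ C := by
    have := Nat.le_ceil (24 * (n : ℝ) / c)
    rw [hC]
    push_cast
    linarith
  refine ⟨C, c / 16, by omega, by positivity, fun N θ κ hCN hκ hκc hcard => ?_⟩
  have hCN' : (C : ℝ) ≤ N := by exact_mod_cast hCN
  have hN0 : (0 : ℝ) < N := lt_of_lt_of_le (by positivity) (hC1.trans hCN')
  obtain ⟨q, hq0, hqn, hqθ⟩ := Real.exists_nat_abs_mul_sub_round_le θ hn1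
  refine ⟨q, hq0, by omega, ?_⟩
  have hCκ : 10 * n / c * κ ≤ C * κ := by
    refine mul_le_mul_of_nonneg_right (le_trans ?_ hC1) hκ
    rw [div_le_div_iff_of_pos_right hc]
    linarith
  rw [le_div_iff₀ hN0]
  refine le_trans ?_ hCκ
  set b := (q : ℝ) * θ - round ((q : ℝ) * θ) with hb
  show |b| * N ≤ _
  rcases lt_trichotomy b 0 with h | h | h
  · -- use `-θ`
    rw [abs_of_neg h] at hqθ ⊢
    refine concl (θ := -θ) (a := -round ((q : ℝ) * θ)) hc hq0 hqn (by linarith) hqθ hκ hκc hn8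
      (hC1.trans hCN') (by rw [hb]; push_cast; ring) ?_
    have h1 : (Icc 1 N).filter (fun h : ℕ => nd (h * -θ) ≤ κ) =
        (Icc 1 N).filter (fun h : ℕ => nd (h * θ) ≤ κ) := by
      refine filter_congr fun h _ => ?_
      rw [mul_neg, nd_neg]
    rw [h1]
    exact hcard
  · rw [h, abs_zero, zero_mul]
    positivity
  · rw [abs_of_pos h] at hqθ ⊢
    exact concl (θ := θ) (a := round ((q : ℝ) * θ)) hc hq0 hqn h hqθ hκ hκc hn8
      (hC1.trans hCN') (by rw [hb]; ring) hcard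

end Pool.Agent.H40.BF
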